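import Pool.Agent.helper46.CountPartU.Build

set_option autoImplicit false
set_option linter.unusedSectionVars false

open Cardinal Order

namespace Pool.Agent.CountPartU

universe u

variable {G : Type u} [Group G]

/-- a rank function increasing by one at immediate successors inside `S`. -/
theorem exists_rank {α : Type*} [LinearOrder α] [WellFoundedLT α] (S : Set α) :
    ∃ nn : α → ℕ, ∀ δ ∈ S, ∀ δ', δ < δ' → (∀ ζ ∈ S, ζ < δ' → ζ ≤ δ) → nn δ' = nn δ + 1 := by
  classical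
  let P : α → α → Prop := fun δ' δ => δ ∈ S ∧ δ < δ' ∧ ∀ ζ ∈ S, ζ < δ' → ζ ≤ δ
  let F : (δ' : α) → ((ζ : α) → ζ < δ' → ℕ) → ℕ := fun δ' prev =>
    if h : ∃ δ, P δ' δ then prev h.choose h.choose_spec.2.1 + 1 else 0
  let nn : α → ℕ := WellFounded.fix (C := fun _ => ℕ) (wellFounded_lt) F
  have hnn : ∀ δ', nn δ' = F δ' (fun ζ _ => nn ζ) := fun δ' => WellFounded.fix_eq _ _ _
  refine ⟨nn, fun δ hδ δ' h1 h2 => ?_⟩
  have hex : ∃ δ, P δ' δ := ⟨δ, hδ, h1, h2⟩
  have hc := hex.choose_spec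
  have heq : hex.choose = δ := le_antisymm (h2 _ hc.1 hc.2.1) (hc.2.2 δ hδ h1)
  have h3 : nn δ' = nn hex.choose + 1 := by
    rw [hnn δ']
    simp only [F]
    rw [dif_pos hex]
  rw [h3, heq]

lemma mk_O (idx : G → Ordinal.{u}) (hsurj : ∀ o < (Cardinal.mk G).ord, ∃ a, idx a = o)
    (c : Cardinal.{u}) (hc : c ≤ Cardinal.mk G) : c ≤ Cardinal.mk {a | idx a < c.ord} := by
  have hex : ∀ o : Set.Iio c.ord, ∃ a, idx a = o.1 := fun o =>
    hsurj o.1 (lt_of_lt_of_le o.2 (Cardinal.ord_le_ord.2 hc))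
  choose p hp using hex
  have h1 : Cardinal.lift.{u} (Cardinal.mk (Set.Iio c.ord)) ≤
      Cardinal.lift.{u+1} (Cardinal.mk {a | idx a < c.ord}) := by
    refine Cardinal.lift_mk_le'.2 ⟨⟨fun o => ⟨p o, ?_⟩, ?_⟩⟩
    · show idx (p o) < c.ord
      rw [hp]
      exact o.2
    · intro a b hab
      have h2 : p a = p b := congrArg Subtype.val hab
      apply Subtype.ext
      rw [← hp a, ← hp b, h2]
  rw [Cardinal.mk_Iio_ordinal, Cardinal.lift_lift, Cardinal.card_ord] at h1
  exact Cardinal.lift_le.1 h1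

/-- existence of scales. -/
theorem exists_scales (idx : G → Ordinal.{u}) (hidx : Function.Injective idx)
    (hsurj : ∀ o < (Cardinal.mk G).ord, ∃ a, idx a = o) (wt : Cardinal.{u} → ℕ)
    (Cl : Subgroup G → Prop) (hCl : Club ⊤ Cl) (N : ℕ) (μ : ℕ → Cardinal.{u}) :
    ∀ (k : ℕ) (F : Set G), (∀ i < k, ℵ₀ ≤ μ i) → (∀ i < k, N < wt (μ i)) →
      (∀ i j, i < j → j < k → succ (μ i) ≤ μ j) → (∀ i < k, succ (μ i) ≤ Cardinal.mk G) →
      (∀ i < k, Cardinal.mk F ≤ μ i) →
      ∃ (M : ℕ → Subgroup G) (g : ℕ → G), Scales idx wt Cl N k μ M g ∧ ∀ i < k, F ⊆ M i := by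
  classical
  obtain ⟨C, c1, _, c3⟩ := hCl
  intro k
  induction k with
  | zero =>
    intro F _ _ _ _ _
    refine ⟨fun _ => ⊤, fun _ => 1, ⟨?_, ?_, ?_, ?_, ?_, ?_, ?_, ?_⟩, ?_⟩ <;> intros <;> omega
  | succ k IH =>
    intro F h1 h2 h3 h4 h5
    have hμk := h1 k (by omega)
    let A : Set G := F ∪ {a | idx a < (μ k).ord}
    have hA : Cardinal.mk A ≤ μ k := by
      refine (Cardinal.mk_union_le _ _).trans (Cardinal.add_le_of_le hμk (h5 k (by omega)) ?_)
      have := mk_inj_le {a | idx a < (μ k).ord} idx (μ k).ord hidx.injOn fun a ha => ha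
      rwa [Cardinal.card_ord] at this
    let Mk : Subgroup G := cl C A
    have hMk : Cardinal.mk Mk ≤ μ k := mk_cl c1 hμk hA
    have hMkcl : Cl Mk := c3 Mk le_top cl_closed
    obtain ⟨gk, hgk1, hgk2⟩ : ∃ a, idx a < (succ (μ k)).ord ∧ a ∉ Mk := by
      by_contra hcon
      push Not at hcon
      have h6 : Cardinal.mk {a | idx a < (succ (μ k)).ord} ≤ Cardinal.mk Mk :=
        Cardinal.mk_le_mk_of_subset hcon
      have h7 := (mk_O idx hsurj _ (h4 k (by omega))).trans (h6.trans hMk)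
      exact absurd h7 (not_le.2 (Order.lt_succ _))
    obtain ⟨M, g, S, hF⟩ := IH (insert gk F) (fun i hi => h1 i (by omega))
      (fun i hi => h2 i (by omega)) (fun i j hij hj => h3 i j hij (by omega))
      (fun i hi => h4 i (by omega)) (by
        intro i hi
        refine Cardinal.mk_insert_le.trans ?_
        refine Cardinal.add_le_of_le (h1 i (by omega)) (h5 i (by omega)) ?_
        exact Cardinal.one_le_aleph0.trans (h1 i (by omega)))
    have hM' : ∀ i < k, (if i = k then Mk else M i) = M i := fun i hi => by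
      rw [if_neg (by omega)]
    have hg' : ∀ i < k, (if i = k then gk else g i) = g i := fun i hi => by
      rw [if_neg (by omega)]
    have hcase : ∀ i < k + 1, i < k ∨ i = k := fun i hi => by omega
    refine ⟨fun i => if i = k then Mk else M i, fun i => if i = k then gk else g i,
      ⟨h1, h2, ?_, ?_, ?_, ?_, ?_, h3⟩, ?_⟩
    · intro i hi
      rcases hcase i hi with h | rfl
      · simp only [hM' i h]; exact S.cl i h
      · simp only [if_true]; exact hMkcl
    · intro i hi a ha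
      rcases hcase i hi with h | rfl
      · simp only [hM' i h]; exact S.sub i h a ha
      · simp only [if_true]; exact subset_cl (Or.inr ha)
    · intro i hi
      rcases hcase i hi with h | rfl
      · simp only [hg' i h]; exact S.gidx i h
      · simp only [if_true]; exact hgk1
    · intro i hi
      rcases hcase i hi with h | rfl
      · simp only [hM' i h, hg' i h]; exact S.gnot i h
      · simp only [if_true]; exact hgk2
    · intro i hi j hj hij
      rcases hcase i hi with h | rfl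
      · rcases hcase j hj with h' | rfl
        · simp only [hM' i h, hg' j h']; exact S.gmem i h j h' hij
        · simp only [hM' i h, if_true]
          exact hF i h (Set.mem_insert _ _)
      · have h' : j < i := by omega
        simp only [hg' j h', if_true]
        refine subset_cl (Or.inr ?_)
        exact (S.gidx j h').trans_le (Cardinal.ord_le_ord.2 (h3 j i h' (by omega)))
    · intro i hi
      rcases hcase i hi with h | rfl
      · simp only [hM' i h]
        exact (Set.subset_insert _ _).trans (hF i h)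
      · simp only [if_true]
        exact Set.subset_union_left.trans subset_cl

/-- enumeration of the group. -/
lemma exists_idx (G : Type u) : ∃ f : G → Ordinal.{u}, Function.Injective f ∧
    (∀ a, f a < (Cardinal.mk G).ord) ∧ ∀ o < (Cardinal.mk G).ord, ∃ a, f a = o := by
  obtain ⟨r, wo, hr⟩ := Cardinal.exists_ord_eq G
  refine ⟨fun a => Ordinal.typein r a, Ordinal.typein_injective r, ?_, ?_⟩
  · intro a
    rw [hr]
    exact Ordinal.typein_lt_type r _
  · intro o ho
    rw [hr] at ho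
    obtain ⟨a, ha⟩ := Ordinal.typein_surj r ho
    exact ⟨a, ha⟩

/-- the trivial system. -/
lemma sys0 : Sys (⊤ : Subgroup G) ∅ ⟨fun _ => True, fun _ => 0, fun _ w => w⟩ where
  fin := Set.finite_empty
  leW N hN := absurd hN (by simp)
  clLe _ _ := le_top
  clW := trivial
  clInf _ _ _ _ := trivial
  club := ⟨fun _ => ∅, fun _ => Set.countable_empty, fun _ _ => by simp, fun _ _ _ => trivial⟩
  s1 _ _ _ _ _ := rfl
  s2 := by rintro M _ w ⟨N, hN, _⟩; exact absurd hN (by simp)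
  s3 := by rintro M _ w ⟨N, hN, _⟩; exact absurd hN (by simp)
  s4 := by rintro M _ w ⟨N, hN, _⟩; exact absurd hN (by simp)
  s5 := by rintro w ⟨N, hN, _⟩; exact absurd hN (by simp)
  s5c := by rintro M _ N hN; exact absurd hN (by simp)
  s6 := by rintro w ⟨N, hN, _⟩; exact absurd hN (by simp)
  s7 := by rintro M M2 _ _ w ⟨N, hN, _⟩; exact absurd hN (by simp)

lemma inc0 (idx : G → Ordinal.{u}) : Inc idx (⊤ : Subgroup G) ∅ where
  inc1 N hN := absurd hN (by simp)
  inc2 _ _ := trivial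
  inc3 _ _ := trivial

lemma claim0 (idx : G → Ordinal.{u}) (wt : Cardinal.{u} → ℕ) (D : Dat G) :
    Claim idx wt ∅ D := by
  rintro N k μ M g S f hf x ⟨N, hN, _⟩
  exact absurd hN (by simp)

/-- the main statement. -/
def HasColouring (G : Type u) [Group G] : Prop :=
  ∃ c : G → ℕ, ∀ (n : ℕ) (F : Set G), Cardinal.mk F < Cardinal.mk G →
    ∃ v : G, ∀ f ∈ F, ∀ x y : G, c x ≤ n → c y ≤ n → v ≠ f * (x * y⁻¹)

theorem limit_case (hG : ℵ₀ < Cardinal.mk G)
    (hlim : ∀ a < Cardinal.mk G, succ a < Cardinal.mk G) : HasColouring G := by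
  classical
  obtain ⟨idx, hidx, _, hsurj⟩ := exists_idx G
  obtain ⟨wt, hwt⟩ := exists_rank (Set.univ : Set Cardinal.{u})
  have hwt' : ∀ μ : Cardinal.{u}, wt (succ μ) = wt μ + 1 := fun μ =>
    hwt μ (Set.mem_univ _) _ (Order.lt_succ _) fun ζ _ hζ => Order.lt_succ_iff.1 hζ
  obtain ⟨D, dS, dC, _⟩ := ext_all idx hidx hsurj wt _ (⊤ : Subgroup G) rfl ∅
    ⟨fun _ => True, fun _ => 0, fun _ w => w⟩ (fun _ => 0) sys0 (inc0 idx) (claim0 idx wt _)
  refine ⟨D.c, fun n F hF => ?_⟩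
  let μ0 : Cardinal.{u} := max ℵ₀ (Cardinal.mk F)
  have hμ0 : μ0 < Cardinal.mk G := max_lt hG hF
  let μ : ℕ → Cardinal.{u} := fun i => succ^[n + 1 + i] μ0
  have hit : ∀ j, μ0 ≤ succ^[j] μ0 ∧ succ^[j] μ0 < Cardinal.mk G ∧
      wt (succ^[j] μ0) = wt μ0 + j := by
    intro j
    induction j with
    | zero => exact ⟨le_rfl, hμ0, rfl⟩
    | succ j IH =>
      rw [Function.iterate_succ_apply']
      exact ⟨IH.1.trans (Order.le_succ _), hlim _ IH.2.1, by rw [hwt', IH.2.2]; rfl⟩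
  have hmono : Monotone (fun j => succ^[j] μ0) := by
    refine monotone_nat_of_le_succ fun j => ?_
    rw [Function.iterate_succ_apply']
    exact Order.le_succ _
  obtain ⟨M, g, S, hFM⟩ := exists_scales idx hidx hsurj wt D.Cl dS.club n μ (n + 1)
    ((fun f => f⁻¹) '' F) (fun i _ => (le_max_left _ _).trans (hit _).1)
    (fun i _ => by
      have := (hit (n + 1 + i)).2.2
      simp only [μ]
      omega)
    (fun i j hij _ => by
      have h1 : succ (μ i) = succ^[n + 1 + i + 1] μ0 := (Function.iterate_succ_apply' _ _ _).symm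
      rw [h1]
      exact hmono (by omega))
    (fun i _ => (hlim _ (hit _).2.1).le)
    (fun i _ => Cardinal.mk_image_le.trans ((le_max_right _ _).trans (hit _).1))
  refine ⟨pt g (n + 1), fun f hf x y hx hy heq => ?_⟩
  refine dC n (n + 1) μ M g S f⁻¹ (fun i hi => hFM i hi ⟨f, hf, rfl⟩) x
    ((mem_UU_singleton _ _).2 trivial) y ((mem_UU_singleton _ _).2 trivial) (by omega) (by omega)
    (by omega) ?_
  rw [heq, inv_mul_cancel_left]

theorem countable_case [Infinite G] (hG : Cardinal.mk G ≤ ℵ₀) : HasColouring G := by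
  have : Countable G := Cardinal.mk_le_aleph0_iff.1 hG
  obtain ⟨c, hc⟩ := exists_injective_nat G
  refine ⟨c, fun n F hF => ?_⟩
  have hFfin : F.Finite := Cardinal.lt_aleph0_iff_set_finite.1 (hF.trans_le hG)
  have hB : ({w | c w ≤ n} : Set G).Finite :=
    Set.Finite.preimage hc.injOn (Set.finite_Iic n)
  have hfin : ((fun p : G × G × G => p.1 * (p.2.1 * p.2.2⁻¹)) ''
      (F ×ˢ ({w | c w ≤ n} ×ˢ {w | c w ≤ n}))).Finite := (hFfin.prod (hB.prod hB)).image _
  obtain ⟨v, hv⟩ := hfin.infinite_compl.nonempty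
  exact ⟨v, fun f hf x y hx hy heq => hv ⟨(f, x, y), ⟨hf, hx, hy⟩, heq.symm⟩⟩

open Classical in
/-- the colouring in the successor case. -/
noncomputable def cR (X : Ctx G) (nn : Ordinal.{u} → ℕ) (w : G) : ℕ :=
  if w ∈ X.V 0 then 0
  else if X.lev (X.ht (X.V (X.lev w)) w) < X.lev w then
    1 + nn (X.lev w) + cR X nn (X.ht (X.V (X.lev w)) w)
  else 1 + nn (X.lev w)
termination_by X.lev w

theorem succ_case (μ : Cardinal.{u}) (hμ : ℵ₀ ≤ μ) (hG : Cardinal.mk G = succ μ) :
    HasColouring G := by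
  classical
  obtain ⟨idx, hidx, hidxlt, hsurj⟩ := exists_idx G
  obtain ⟨X, hX, hXi, _, hXW, _, _, _⟩ := exists_ctx idx hidx hsurj (fun _ => 0)
    (⊤ : Subgroup G) ∅ ⟨fun _ => True, fun _ => 0, fun _ w => w⟩ (fun _ => 0) sys0 (inc0 idx)
    (claim0 idx _ _)
  let S : Set Ordinal.{u} := {δ | ¬ X.V (δ + 1) ≤ X.V δ}
  obtain ⟨nn, hnn⟩ := exists_rank S
  have hcardT : Cardinal.mk X.W = Cardinal.mk G := by
    rw [hXW]
    exact Cardinal.mk_univ
  have hVtop : ∀ w, w ∈ X.V (Cardinal.mk G).ord := by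
    intro w
    have := hX.V_top
    rw [hcardT] at this
    rw [this, hXW]
    trivial
  have hreg : (Cardinal.mk G).IsRegular := by rw [hG]; exact Cardinal.isRegular_succ hμ
  have hlimG := Cardinal.isSuccLimit_ord hreg.aleph0_le
  -- unbounded levels
  have hbase : ∀ δ0 < (Cardinal.mk G).ord, ∃ δ ∈ S, δ0 ≤ δ ∧ δ < (Cardinal.mk G).ord := by
    intro δ0 hδ0
    obtain ⟨w, hw⟩ : ∃ w, w ∉ X.V δ0 := by
      by_contra h
      push Not at h
      have h1 : Cardinal.mk G ≤ Cardinal.mk (X.V δ0) := by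
        rw [← Cardinal.mk_univ]
        exact Cardinal.mk_le_mk_of_subset fun w _ => h w
      have h2 : Cardinal.mk (X.V δ0) ≤ μ := by
        refine (hX.V_card δ0).trans (max_le hμ ?_)
        rw [Cardinal.lt_ord, hG, Order.lt_succ_iff] at hδ0
        exact hδ0
      rw [hG] at h1
      exact absurd (h1.trans h2) (not_le.2 (Order.lt_succ _))
    have hw0 : w ∉ X.V 0 := fun h => hw (hX.V_mono zero_le h)
    obtain ⟨l1, l2, l3⟩ := Ctx.lev_spec hX (hVtop w) hw0
    refine ⟨X.lev w, fun h => l2 (h l1), ?_, l3⟩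
    by_contra h
    rw [not_le] at h
    exact hw (hX.V_mono (Order.add_one_le_of_lt h) l1)
  have hunb : ∀ n : ℕ, ∀ δ0 < (Cardinal.mk G).ord, ∃ δ ∈ S, δ0 ≤ δ ∧ δ < (Cardinal.mk G).ord ∧
      n ≤ nn δ := by
    intro n
    induction n with
    | zero =>
      intro δ0 hδ0
      obtain ⟨δ, h1, h2, h3⟩ := hbase δ0 hδ0
      exact ⟨δ, h1, h2, h3, Nat.zero_le _⟩
    | succ n IH =>
      intro δ0 hδ0
      obtain ⟨δ, h1, h2, h3, h4⟩ := IH δ0 hδ0
      obtain ⟨δ1, k1, k2, k3⟩ := hbase (δ + 1) (hlimG.succ_lt h3)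
      have hne : {ζ | ζ ∈ S ∧ δ < ζ}.Nonempty := ⟨δ1, k1, (Order.lt_succ δ).trans_le k2⟩
      have hmem := csInf_mem hne
      have hle : sInf {ζ | ζ ∈ S ∧ δ < ζ} ≤ δ1 :=
        csInf_le' ⟨k1, (Order.lt_succ δ).trans_le k2⟩
      refine ⟨sInf {ζ | ζ ∈ S ∧ δ < ζ}, hmem.1, h2.trans hmem.2.le, hle.trans_lt k3, ?_⟩
      rw [hnn δ h1 _ hmem.2]
      · omega
      · intro ζ hζ hζlt
        by_contra h
        rw [not_le] at h
        exact absurd hζlt (not_lt.2 (csInf_le' ⟨hζ, h⟩))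
  -- properties of the colouring
  have hclV : ∀ ζ, X.D.Cl (X.V ζ) := fun ζ => hX.K_cl _ (hX.K_V ζ)
  have hc1 : ∀ w, w ∉ X.V 0 → nn (X.lev w) < cR X nn w := by
    intro w hw
    rw [cR, if_neg hw]
    split_ifs <;> omega
  have hc2 : ∀ w, w ∉ X.V 0 → cR X nn (X.ht (X.V (X.lev w)) w) < cR X nn w := by
    intro w hw
    conv_rhs => rw [cR, if_neg hw]
    split_ifs with h
    · omega
    · have h2 : X.ht (X.V (X.lev w)) w ∈ X.V (X.lev w) := hX.ht2 _ (hclV _) w
      have h3 : X.ht (X.V (X.lev w)) w ∈ X.V 0 := by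
        by_contra h3
        exact h (Ctx.lev_spec hX h2 h3).2.2
      rw [cR, if_pos h3]
      omega
  refine ⟨cR X nn, fun n F hF => ?_⟩
  -- bound of F
  obtain ⟨δ0, hδ0, hFδ⟩ : ∃ δ0 < (Cardinal.mk G).ord, F ⊆ X.V δ0 := by
    refine ⟨⨆ f : F, (idx f.1 + 1), ?_, ?_⟩
    · refine Ordinal.iSup_lt_of_lt_cof (by rw [hreg.cof_ord]; exact hF) fun f =>
        hlimG.succ_lt (hidxlt f.1)
    · intro f hf
      refine hX.V_idx _ f (by rw [hXW]; trivial) ?_
      rw [hXi]
      have h1 : idx f + 1 ≤ ⨆ f : F, (idx f.1 + 1) :=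
        Ordinal.le_iSup (fun f : F => idx f.1 + 1) ⟨f, hf⟩
      exact lt_of_lt_of_le (Order.lt_succ _) h1
  obtain ⟨δ, hδS, hδ1, hδ2, hδn⟩ := hunb n δ0 hδ0
  obtain ⟨v, hv1, hv2⟩ := SetLike.not_le_iff_exists.1 hδS
  -- main claim
  have main : ∀ m : ℕ, ∀ v' x y : G, v' ∈ X.V (δ + 1) → v' ∉ X.V δ → cR X nn x = m →
      cR X nn x ≤ n → cR X nn y ≤ n → v' ≠ x * y⁻¹ := by
    intro m
    induction m using Nat.strong_induction_on with
    | _ m IH =>
    intro v' x y hv1 hv2 hxm hx hy heq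
    have h0 : ¬ (x ∈ X.V 0 ∧ y ∈ X.V 0) := by
      rintro ⟨h1, h2⟩
      apply hv2
      rw [heq]
      exact hX.V_mono zero_le (mul_mem h1 (inv_mem h2))
    obtain ⟨θ, _, t2, t3, t4⟩ : ∃ θ < (Cardinal.mk G).ord, x ∈ X.V (θ + 1) ∧ y ∈ X.V (θ + 1) ∧
        ¬ (x ∈ X.V θ ∧ y ∈ X.V θ) := by
      by_cases hx0 : x ∈ X.V 0
      · have hy0 : y ∉ X.V 0 := fun h => h0 ⟨hx0, h⟩
        obtain ⟨l1, l2, l3⟩ := Ctx.lev_spec hX (hVtop y) hy0
        exact ⟨_, l3, hX.V_mono zero_le hx0, l1, fun h => l2 h.2⟩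
      · obtain ⟨l1, l2, l3⟩ := Ctx.lev_spec hX (hVtop x) hx0
        by_cases hy0 : y ∈ X.V 0
        · exact ⟨_, l3, l1, hX.V_mono zero_le hy0, fun h => l2 h.1⟩
        · obtain ⟨m1, m2, m3⟩ := Ctx.lev_spec hX (hVtop y) hy0
          rcases le_total (X.lev x) (X.lev y) with h | h
          · exact ⟨_, m3, hX.V_mono (by gcongr) l1, m1, fun h => m2 h.2⟩
          · exact ⟨_, l3, l1, hX.V_mono (by gcongr) m1, fun h => l2 h.1⟩
    have hvθ : v' ∈ X.V (θ + 1) := by rw [heq]; exact mul_mem t2 (inv_mem t3)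
    have hbig : ∀ w, w ∈ X.V (δ + 1) → w ∉ X.V δ → n < cR X nn w := by
      intro w h1 h2
      have hw0 : w ∉ X.V 0 := fun h => h2 (hX.V_mono zero_le h)
      have := hc1 w hw0
      rw [Ctx.lev_eq hX h1 h2] at this
      omega
    rcases lt_trichotomy θ δ with h | h | h
    · exact hv2 (hX.V_mono (Order.add_one_le_of_lt h) hvθ)
    · subst h
      by_cases hxθ : x ∈ X.V θ
      · have hyθ : y ∉ X.V θ := fun h => t4 ⟨hxθ, h⟩
        have := hbig y t3 hyθ
        omega
      · have := hbig x t2 hxθ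
        omega
    · have hvθ' : v' ∈ X.V θ := hX.V_mono (Order.add_one_le_of_lt h) hv1
      have hxy : x = v' * y := by rw [heq]; group
      have hyθ : y ∉ X.V θ := by
        intro h
        exact t4 ⟨by rw [hxy]; exact mul_mem hvθ' h, h⟩
      have hxθ : x ∉ X.V θ := by
        intro h
        apply hyθ
        have h1 : y = v'⁻¹ * x := by rw [hxy]; group
        rw [h1]
        exact mul_mem (inv_mem hvθ') h
      have hx0 : x ∉ X.V 0 := fun h => hxθ (hX.V_mono zero_le h)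
      have hy0 : y ∉ X.V 0 := fun h => hyθ (hX.V_mono zero_le h)
      have c1 := hc2 x hx0
      have c2 := hc2 y hy0
      rw [Ctx.lev_eq hX t2 hxθ] at c1
      rw [Ctx.lev_eq hX t3 hyθ] at c2
      have e1 : X.ht (X.V θ) x = v' * X.ht (X.V θ) y := by
        conv_lhs => rw [hxy]
        exact hX.ht3 _ (hclV θ) _ _ hvθ'
      refine IH _ (by omega) v' (X.ht (X.V θ) x) (X.ht (X.V θ) y) hv1 hv2 rfl (by omega)
        (by omega) ?_
      rw [e1]; group
  refine ⟨v, fun f hf x y hx hy heq => ?_⟩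
  have hfδ : f ∈ X.V δ := hX.V_mono hδ1 (hFδ hf)
  refine main _ (f⁻¹ * v) x y ?_ ?_ rfl hx hy ?_
  · exact mul_mem (inv_mem (hX.V_mono (Order.le_succ δ) hfδ)) hv1
  · intro h
    apply hv2
    have := mul_mem hfδ h
    rwa [mul_inv_cancel_left] at this
  · rw [heq, inv_mul_cancel_left]

theorem hasColouring (G : Type u) [Group G] [Infinite G] : HasColouring G := by
  rcases le_or_gt (Cardinal.mk G) ℵ₀ with h | h
  · exact countable_case h
  by_cases hlim : ∀ a < Cardinal.mk G, succ a < Cardinal.mk G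
  · exact limit_case h hlim
  · push Not at hlim
    obtain ⟨μ, h1, h2⟩ := hlim
    have h3 : Cardinal.mk G = succ μ := le_antisymm h2 (Order.succ_le_of_lt h1)
    refine succ_case μ ?_ h3
    rw [h3] at h
    exact Order.lt_succ_iff.1 h

end Pool.Agent.CountPartU
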