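import Mathlib

/-!
# Countable partitions of groups (MP_4f48ca_al): basic definitions
-/

set_option autoImplicit false

open Cardinal Order

namespace Pool.Agent.CountPartU

universe u

variable {G : Type u} [Group G]

/-- Colouring data: a class of closed subgroups, a colouring, reductions. -/
structure Dat (G : Type u) [Group G] where
  Cl : Subgroup G → Prop
  c : G → ℕ
  h : Subgroup G → G → G

instance : Inhabited (Dat G) := ⟨⟨fun _ => False, fun _ => 0, fun _ w => w⟩⟩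

/-- The union of a family of subgroups. -/
def UU (𝒩 : Set (Subgroup G)) : Set G := {w | ∃ N ∈ 𝒩, w ∈ N}

/-- `P` holds for club many subgroups of `W`. -/
def Club (W : Subgroup G) (P : Subgroup G → Prop) : Prop :=
  ∃ C : Finset G → Set G, (∀ s, (C s).Countable) ∧ (∀ s : Finset G, (s : Set G) ⊆ W → C s ⊆ W) ∧
    ∀ M : Subgroup G, M ≤ W → (∀ s : Finset G, (s : Set G) ⊆ M → C s ⊆ M) → P M

structure Sys (W : Subgroup G) (𝒩 : Set (Subgroup G)) (D : Dat G) : Prop where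
  fin : 𝒩.Finite
  leW : ∀ N ∈ 𝒩, N ≤ W
  clLe : ∀ M, D.Cl M → M ≤ W
  clW : D.Cl W
  clInf : ∀ M M2, D.Cl M → D.Cl M2 → D.Cl (M ⊓ M2)
  club : Club W D.Cl
  s1 : ∀ M, D.Cl M → ∀ w ∈ UU 𝒩, w ∈ M → D.h M w = w
  s2 : ∀ M, D.Cl M → ∀ w ∈ UU 𝒩, D.h M w ∈ M
  s3 : ∀ M, D.Cl M → ∀ w ∈ UU 𝒩, ∀ z ∈ M, z * w ∈ UU 𝒩 → D.h M (z * w) = z * D.h M w
  s4 : ∀ M, D.Cl M → ∀ w ∈ UU 𝒩, w ∉ M → D.c (D.h M w) < D.c w
  s5 : ∀ w ∈ UU 𝒩, {t | ∃ M, D.Cl M ∧ D.h M w = t}.Finite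
  s5c : ∀ M, D.Cl M → ∀ N ∈ 𝒩, ∀ w ∈ N, D.h M w ∈ N
  s6 : ∀ w ∈ UU 𝒩, D.c w⁻¹ = D.c w
  s7 : ∀ M M2, D.Cl M → D.Cl M2 → ∀ w ∈ UU 𝒩, w ∈ M2 → D.h M w = D.h (M ⊓ M2) w

/-- the ordered product `g (k-1) * ... * g 0`. -/
def pt (g : ℕ → G) : ℕ → G
  | 0 => 1
  | (k + 1) => g k * pt g k

lemma pt_mem (g : ℕ → G) (H : Subgroup G) : ∀ k, (∀ i < k, g i ∈ H) → pt g k ∈ H
  | 0, _ => H.one_mem
  | (k + 1), hh => H.mul_mem (hh k (Nat.lt_succ_self k))
      (pt_mem g H k (fun i hi => hh i (Nat.lt_succ_of_lt hi)))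

structure Scales (idx : G → Ordinal.{u}) (wt : Cardinal.{u} → ℕ) (Cl : Subgroup G → Prop)
    (N k : ℕ) (μ : ℕ → Cardinal.{u}) (M : ℕ → Subgroup G) (g : ℕ → G) : Prop where
  inf : ∀ i < k, ℵ₀ ≤ μ i
  wt : ∀ i < k, N < wt (μ i)
  cl : ∀ i < k, Cl (M i)
  sub : ∀ i < k, ∀ a, idx a < (μ i).ord → a ∈ M i
  gidx : ∀ i < k, idx (g i) < (succ (μ i)).ord
  gnot : ∀ i < k, g i ∉ M i
  gmem : ∀ i < k, ∀ j < k, i ≠ j → g j ∈ M i
  step : ∀ i j, i < j → j < k → succ (μ i) ≤ μ j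

namespace Scales

variable {idx : G → Ordinal.{u}} {wt : Cardinal.{u} → ℕ} {Cl Cl' : Subgroup G → Prop}
    {N k : ℕ} {μ : ℕ → Cardinal.{u}} {M : ℕ → Subgroup G} {g : ℕ → G}

lemma drop (S : Scales idx wt Cl N (k + 1) μ M g) : Scales idx wt Cl N k μ M g where
  inf i hi := S.inf i (by omega)
  wt i hi := S.wt i (by omega)
  cl i hi := S.cl i (by omega)
  sub i hi := S.sub i (by omega)
  gidx i hi := S.gidx i (by omega)
  gnot i hi := S.gnot i (by omega)
  gmem i hi j hj := S.gmem i (by omega) j (by omega)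
  step i j hij hj := S.step i j hij (by omega)

lemma mono (S : Scales idx wt Cl N k μ M g) (hC : ∀ M, Cl M → Cl' M) :
    Scales idx wt Cl' N k μ M g where
  inf := S.inf
  wt := S.wt
  cl i hi := hC _ (S.cl i hi)
  sub := S.sub
  gidx := S.gidx
  gnot := S.gnot
  gmem := S.gmem
  step := S.step

/-- the lower part of the product lies in each subgroup containing the initial segment. -/
lemma pt_low (S : Scales idx wt Cl N (k + 1) μ M g) (H : Subgroup G)
    (hH : ∀ a, idx a < (μ k).ord → a ∈ H) : pt g k ∈ H := by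
  refine pt_mem g H k fun i hi => hH _ ?_
  exact lt_of_lt_of_le (S.gidx i (by omega)) (Cardinal.ord_le_ord.2 (S.step i k hi (by omega)))

/-- the whole product lies in each subgroup containing the next initial segment. -/
lemma pt_all (S : Scales idx wt Cl N (k + 1) μ M g) (H : Subgroup G)
    (hH : ∀ a, idx a < (succ (μ k)).ord → a ∈ H) : pt g (k + 1) ∈ H := by
  refine H.mul_mem (hH _ (S.gidx k (by omega))) (S.pt_low H fun a ha => hH a ?_)
  exact ha.trans_le (Cardinal.ord_le_ord.2 (Order.le_succ _))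

end Scales

def Claim (idx : G → Ordinal.{u}) (wt : Cardinal.{u} → ℕ) (𝒩 : Set (Subgroup G)) (D : Dat G) :
    Prop :=
  ∀ (N k : ℕ) (μ : ℕ → Cardinal.{u}) (M : ℕ → Subgroup G) (g : ℕ → G),
    Scales idx wt D.Cl N k μ M g → ∀ f : G, (∀ i < k, f ∈ M i) →
    ∀ x ∈ UU 𝒩, ∀ y ∈ UU 𝒩, D.c x < k → D.c x ≤ N → D.c y ≤ N → f * pt g k ≠ x * y⁻¹

structure Inc (idx : G → Ordinal.{u}) (W : Subgroup G) (𝒩 : Set (Subgroup G)) : Prop where
  inc1 : ∀ N ∈ 𝒩, ∀ κ' < Cardinal.mk W, ∀ a, idx a < κ'.ord → a ∈ N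
  inc2 : ∀ a, idx a < (Cardinal.mk W).ord → a ∈ W
  inc3 : ∀ a, idx a < Ordinal.omega0 → a ∈ W

/-! ### Dependent choice along ordinals -/

/-- truncation of a sequence at `η`. -/
noncomputable def tr {α : Type*} [Inhabited α] (η : Ordinal.{u}) (f : Ordinal.{u} → α) :
    Ordinal.{u} → α := by
  classical exact fun ζ => if ζ < η then f ζ else default

lemma tr_lt {α : Type*} [Inhabited α] {η ζ : Ordinal.{u}} (f : Ordinal.{u} → α) (h : ζ < η) :
    tr η f ζ = f ζ := by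
  simp [tr, h]

lemma tr_congr {α : Type*} [Inhabited α] {η : Ordinal.{u}} {f f' : Ordinal.{u} → α}
    (h : ∀ ζ < η, f ζ = f' ζ) : tr η f = tr η f' := by
  funext ζ
  simp only [tr]
  split_ifs with hz
  · exact h ζ hz
  · rfl

lemma tr_tr {α : Type*} [Inhabited α] {η ζ : Ordinal.{u}} (f : Ordinal.{u} → α) (h : ζ ≤ η) :
    tr ζ (tr η f) = tr ζ f :=
  tr_congr fun _ hx => tr_lt f (hx.trans_le h)

theorem dep_choice {α : Type*} [Inhabited α] (Q : Ordinal.{u} → (Ordinal.{u} → α) → α → Prop)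
    (step : ∀ (η : Ordinal.{u}) (f : Ordinal.{u} → α), (∀ ζ < η, Q ζ (tr ζ f) (f ζ)) →
      ∃ o, Q η (tr η f) o) :
    ∃ f : Ordinal.{u} → α, ∀ η, Q η (tr η f) (f η) := by
  classical
  let F : (η : Ordinal.{u}) → ((ζ : Ordinal.{u}) → ζ < η → α) → α := fun η prev =>
    let p : Ordinal.{u} → α := fun ζ => if h : ζ < η then prev ζ h else default
    if h : ∃ o, Q η p o then h.choose else default
  let f : Ordinal.{u} → α := WellFounded.fix (C := fun _ => α) (Ordinal.lt_wf) F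
  have hf : ∀ η, f η = F η (fun ζ _ => f ζ) := fun η => WellFounded.fix_eq _ _ _
  refine ⟨f, fun η => ?_⟩
  induction η using WellFoundedLT.induction with
  | _ η IH =>
    have h1 : ∃ o, Q η (tr η f) o := step η f IH
    have h2 : (fun ζ => if h : ζ < η then f ζ else default) = tr η f := by
      funext ζ; simp [tr]
    have h3 : f η = if h : ∃ o, Q η (tr η f) o then h.choose else default := by
      rw [hf η]
      simp only [F]
      rw [← h2]
    rw [h3, dif_pos h1]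
    exact h1.choose_spec

/-! ### Totalisation of a reduction -/

theorem totalise (M : Subgroup G) (U : Set G) (h : G → G)
    (s1 : ∀ w ∈ U, w ∈ M → h w = w) (s2 : ∀ w ∈ U, h w ∈ M)
    (s3 : ∀ w ∈ U, ∀ z ∈ M, z * w ∈ U → h (z * w) = z * h w) :
    ∃ t : G → G, (∀ w ∈ M, t w = w) ∧ (∀ w, t w ∈ M) ∧
      (∀ w, ∀ z ∈ M, t (z * w) = z * t w) ∧ (∀ w ∈ U, t w = h w) := by
  classical
  let P : G → G → Prop := fun w u =>
    u * w⁻¹ ∈ M ∧ ((∃ u', u' * w⁻¹ ∈ M ∧ (u' ∈ U ∨ u' ∈ M)) → (u ∈ U ∨ u ∈ M))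
  have hex : ∀ w, ∃ u, P w u := by
    intro w
    by_cases hh : ∃ u', u' * w⁻¹ ∈ M ∧ (u' ∈ U ∨ u' ∈ M)
    · obtain ⟨u', h1, h2⟩ := hh
      exact ⟨u', h1, fun _ => h2⟩
    · exact ⟨w, by simp, fun h => absurd h hh⟩
  let ρ : G → G := fun w => Classical.epsilon (P w)
  have hρ : ∀ w, P w (ρ w) := fun w => Classical.epsilon_spec (hex w)
  have hρz : ∀ w, ∀ z ∈ M, ρ (z * w) = ρ w := by
    intro w z hz
    have h1 : ∀ u, u * (z * w)⁻¹ ∈ M ↔ u * w⁻¹ ∈ M := by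
      intro u
      have : u * (z * w)⁻¹ = u * w⁻¹ * z⁻¹ := by group
      rw [this]
      exact M.mul_mem_cancel_right (M.inv_mem hz)
    have : P (z * w) = P w := by
      funext u
      simp only [P, h1]
    show Classical.epsilon (P (z * w)) = Classical.epsilon (P w)
    rw [this]
  let τ : G → G := fun u => if u ∈ M then u else if u ∈ U then h u else 1
  have hτ : ∀ u, τ u ∈ M := by
    intro u
    simp only [τ]
    split_ifs with h1 h2
    · exact h1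
    · exact s2 u h2
    · exact M.one_mem
  have hq : ∀ w, w * (ρ w)⁻¹ ∈ M := by
    intro w
    have := M.inv_mem (hρ w).1
    simpa using this
  refine ⟨fun w => w * (ρ w)⁻¹ * τ (ρ w), ?_, ?_, ?_, ?_⟩
  · intro w hw
    have h1 : ρ w ∈ M := by
      have := M.mul_mem (M.inv_mem (hq w)) hw
      simpa using this
    have : τ (ρ w) = ρ w := by simp [τ, h1]
    show w * (ρ w)⁻¹ * τ (ρ w) = w
    rw [this]; group
  · intro w
    exact M.mul_mem (hq w) (hτ _)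
  · intro w z hz
    show z * w * (ρ (z * w))⁻¹ * τ (ρ (z * w)) = z * (w * (ρ w)⁻¹ * τ (ρ w))
    rw [hρz w z hz]; group
  · intro w hw
    show w * (ρ w)⁻¹ * τ (ρ w) = h w
    have h0 : ρ w ∈ U ∨ ρ w ∈ M := (hρ w).2 ⟨w, by simp, Or.inl hw⟩
    by_cases h1 : ρ w ∈ M
    · have h2 : w ∈ M := by
        have := M.mul_mem (hq w) h1
        simpa using this
      have : τ (ρ w) = ρ w := by simp [τ, h1]
      rw [this, s1 w hw h2]; group
    · have h2 : ρ w ∈ U := h0.resolve_right h1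
      have h3 : τ (ρ w) = h (ρ w) := by simp [τ, h1, h2]
      have h4 : w * (ρ w)⁻¹ * ρ w = w := by group
      have h5 := s3 (ρ w) h2 (w * (ρ w)⁻¹) (hq w) (by rw [h4]; exact hw)
      rw [h4] at h5
      rw [h3, h5]

end Pool.Agent.CountPartU
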