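import Pool.Agent.helper46.CountPartU.Closure

set_option autoImplicit false
set_option linter.unusedSectionVars false

open Cardinal Order

namespace Pool.Agent.CountPartU

universe u

variable {G : Type u} [Group G]

@[simp] lemma mem_UU_singleton (V : Subgroup G) (w : G) :
    w ∈ UU ({V} : Set (Subgroup G)) ↔ w ∈ V := by
  simp [UU]

/-- chosen left coset representative. -/
noncomputable def lN (N : Subgroup G) (w : G) : G := ((w : G ⧸ N)).out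

lemma lN_inv_mul (N : Subgroup G) (w : G) : (lN N w)⁻¹ * w ∈ N := by
  have : ((lN N w : G) : G ⧸ N) = (w : G ⧸ N) := by
    simp [lN]
  exact QuotientGroup.eq.1 this

lemma lN_eq_of_mul (N : Subgroup G) (w u : G) (hu : u ∈ N) : lN N (w * u) = lN N w := by
  have : ((w * u : G) : G ⧸ N) = (w : G ⧸ N) := by
    rw [QuotientGroup.eq]
    have : (w * u)⁻¹ * w = u⁻¹ := by group
    rw [this]; exact N.inv_mem hu
  simp only [lN, this]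

structure Ctx (G : Type u) [Group G] where
  idx : G → Ordinal.{u}
  wt : Cardinal.{u} → ℕ
  W : Subgroup G
  𝒩 : Set (Subgroup G)
  D : Dat G
  b : G → ℕ
  K : Subgroup G → Prop
  V : Ordinal.{u} → Subgroup G
  ht : Subgroup G → G → G
  base : G → ℕ
  e : Ordinal.{u} → G

structure Ctx.OK (X : Ctx G) : Prop where
  sys : Sys X.W X.𝒩 X.D
  inc : Inc X.idx X.W X.𝒩
  claim : Claim X.idx X.wt X.𝒩 X.D
  K_le : ∀ M, X.K M → M ≤ X.W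
  K_cl : ∀ M, X.K M → X.D.Cl M
  K_l : ∀ M, X.K M → ∀ N ∈ X.𝒩, ∀ w ∈ M, lN N w ∈ M
  K_0 : ∀ M, X.K M → X.V 0 ≤ M
  K_mu : ∀ M, X.K M → ∀ μ : Cardinal.{u}, ℵ₀ ≤ μ → (∀ a, X.idx a < μ.ord → a ∈ M) →
    X.V μ.ord ≤ M
  K_inf : ∀ M M2, X.K M → X.K M2 → X.K (M ⊓ M2)
  K_V : ∀ ζ, X.K (X.V ζ)
  K_club : ∃ C : Finset G → Set G, (∀ s, (C s).Countable) ∧
    (∀ ζ, ∀ s : Finset G, (s : Set G) ⊆ X.V ζ → C s ⊆ X.V ζ) ∧
    ∀ M : Subgroup G, M ≤ X.W → (∀ s : Finset G, (s : Set G) ⊆ M → C s ⊆ M) → X.K M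
  V_mono : Monotone X.V
  V_lim : ∀ ζ, ∀ w ∈ X.V ζ, w ∉ X.V 0 → ∃ η < ζ, w ∈ X.V (η + 1)
  V_top : X.V (Cardinal.mk X.W).ord = X.W
  V_idx : ∀ ζ, ∀ a ∈ X.W, X.idx a < ζ → a ∈ X.V ζ
  V_om : ∀ a, X.idx a < Ordinal.omega0 → a ∈ X.V 0
  V_card : ∀ ζ : Ordinal.{u}, Cardinal.mk (X.V ζ) ≤ max ℵ₀ ζ.card
  ht1 : ∀ M, X.D.Cl M → ∀ w ∈ M, X.ht M w = w
  ht2 : ∀ M, X.D.Cl M → ∀ w, X.ht M w ∈ M
  ht3 : ∀ M, X.D.Cl M → ∀ w, ∀ z ∈ M, X.ht M (z * w) = z * X.ht M w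
  ht4 : ∀ M, X.D.Cl M → ∀ w ∈ UU X.𝒩, X.ht M w = X.D.h M w
  base1 : ∀ w, X.b w ≤ X.base w
  base2 : ∀ w, ∀ N ∈ X.𝒩, X.D.c ((lN N w)⁻¹ * w) < X.base w
  base3 : ∀ w, X.base w⁻¹ = X.base w
  e_mem : ∀ η, X.e η ∈ X.V (η + 1)
  e_not : ∀ η, ¬ X.V (η + 1) ≤ X.V η → X.e η ∉ X.V η

namespace Ctx

variable (X : Ctx G)

/-- level of an element. -/
noncomputable def lev (w : G) : Ordinal.{u} := sInf {η | w ∈ X.V (η + 1)}

def T (M : Subgroup G) (w : G) : Prop := w ∈ M ∨ ∃ N ∈ X.𝒩, lN N w ∈ M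

def Lev (M : Subgroup G) (η : Ordinal.{u}) : Prop := ¬ (M ⊓ X.V (η + 1) ≤ X.V η)

open Classical in
noncomputable def hG (out : Ordinal.{u} → Dat G) (M : Subgroup G) (w : G) : G :=
  if X.T M w then X.ht M w
  else if X.Lev M (X.lev w) then (out (X.lev w)).h (M ⊓ X.V (X.lev w + 1)) w
  else if X.lev (X.ht (X.V (X.lev w)) w) < X.lev w then hG out M (X.ht (X.V (X.lev w)) w)
  else X.ht M (X.ht (X.V (X.lev w)) w)
termination_by X.lev w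

open Classical in
noncomputable def cG (out : Ordinal.{u} → Dat G) (w : G) : ℕ :=
  if w ∈ UU X.𝒩 then X.D.c w else if w ∈ X.V 0 then X.base w else (out (X.lev w)).c w

def ClS (out : Ordinal.{u} → Dat G) (ξ : Ordinal.{u}) (M : Subgroup G) : Prop :=
  X.K M ∧ ∀ η < ξ, X.Lev M η → (out η).Cl (M ⊓ X.V (η + 1))

def ClI (out : Ordinal.{u} → Dat G) (ξ : Ordinal.{u}) (M : Subgroup G) : Prop :=
  M ≤ X.V (ξ + 1) ∧ X.ClS out ξ M ∧ X.e ξ ∈ M ∧ ∀ w ∈ M, X.ht (X.V ξ) w ∈ M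

structure GoodQ (η : Ordinal.{u}) (f : Ordinal.{u} → Dat G) (o : Dat G) : Prop where
  sys : Sys (X.V (η + 1)) {X.V (η + 1)} o
  claim : Claim X.idx X.wt {X.V (η + 1)} o
  g2 : ∀ M, o.Cl M → X.ClI f η M
  g3 : ∀ w ∈ X.V (η + 1), (w ∈ UU X.𝒩 ∨ w ∈ X.V η) → o.c w = X.cG f w
  g4 : ∀ M, o.Cl M → ∀ w ∈ X.V (η + 1), (w ∈ UU X.𝒩 ∨ w ∈ X.V η) → o.h M w = X.hG f M w
  g5b : ∀ w ∈ X.V (η + 1), w ∉ UU X.𝒩 → w ∉ X.V η → X.b w ≤ o.c w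
  g5w : ∀ w ∈ X.V (η + 1), w ∉ UU X.𝒩 → w ∉ X.V η → X.wt η.card ≤ o.c w
  g5N : ∀ w ∈ X.V (η + 1), w ∉ UU X.𝒩 → w ∉ X.V η → ∀ N ∈ X.𝒩,
    X.D.c ((lN N w)⁻¹ * w) < o.c w
  g5h : ∀ w ∈ X.V (η + 1), w ∉ UU X.𝒩 → w ∉ X.V η → ∀ M, X.ClS f η M → ¬ X.Lev M η →
    X.cG f (X.hG f M w) < o.c w

abbrev Good (out : Ordinal.{u} → Dat G) (η : Ordinal.{u}) : Prop := X.GoodQ η out (out η)

variable {X} (hX : X.OK)

include hX

lemma lev_spec {ζ : Ordinal.{u}} {w : G} (h : w ∈ X.V ζ) (h0 : w ∉ X.V 0) :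
    w ∈ X.V (X.lev w + 1) ∧ w ∉ X.V (X.lev w) ∧ X.lev w < ζ := by
  obtain ⟨η, h1, h2⟩ := hX.V_lim ζ w h h0
  have hne : {η | w ∈ X.V (η + 1)}.Nonempty := ⟨η, h2⟩
  have h3 : w ∈ X.V (X.lev w + 1) := csInf_mem hne
  refine ⟨h3, ?_, ?_⟩
  · intro h4
    obtain ⟨η', h5, h6⟩ := hX.V_lim _ w h4 h0
    have : X.lev w ≤ η' := csInf_le' h6
    exact absurd h5 (not_lt.2 this)
  · exact lt_of_le_of_lt (csInf_le' h2) h1

lemma lev_le {η : Ordinal.{u}} {w : G} (h : w ∈ X.V (η + 1)) : X.lev w ≤ η := csInf_le' h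

lemma lev_eq {η : Ordinal.{u}} {w : G} (h : w ∈ X.V (η + 1)) (h' : w ∉ X.V η) :
    X.lev w = η := by
  have h0 : w ∉ X.V 0 := fun h0 => h' (hX.V_mono zero_le h0)
  obtain ⟨h1, h2, h3⟩ := lev_spec hX h h0
  refine le_antisymm (lev_le hX h) ?_
  by_contra h4
  rw [not_le] at h4
  exact h' (hX.V_mono (Order.add_one_le_of_lt h4) h1)

lemma T_of_U {M : Subgroup G} (hM : X.K M) {w : G} (hw : w ∈ UU X.𝒩) : X.T M w := by
  obtain ⟨N, hN, hwN⟩ := hw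
  right
  refine ⟨N, hN, ?_⟩
  have h1 : lN N (1 * w) = lN N 1 := lN_eq_of_mul N 1 w hwN
  rw [one_mul] at h1
  rw [h1]
  exact hX.K_l M hM N hN 1 M.one_mem

lemma T_smul_aux {M : Subgroup G} (hM : X.K M) {z w : G} (hz : z ∈ M) (h : X.T M w) :
    X.T M (z * w) := by
  rcases h with h | ⟨N, hN, h⟩
  · exact Or.inl (M.mul_mem hz h)
  · right
    refine ⟨N, hN, ?_⟩
    have h1 : z * w = (z * lN N w) * ((lN N w)⁻¹ * w) := by group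
    rw [h1, lN_eq_of_mul N _ _ (lN_inv_mul N w)]
    exact hX.K_l M hM N hN _ (M.mul_mem hz h)

lemma T_smul {M : Subgroup G} (hM : X.K M) {z w : G} (hz : z ∈ M) :
    X.T M (z * w) ↔ X.T M w := by
  refine ⟨fun h => ?_, T_smul_aux hX hM hz⟩
  have := T_smul_aux hX hM (M.inv_mem hz) h
  rwa [inv_mul_cancel_left] at this

lemma T_inf {M M2 : Subgroup G} (hM2 : X.K M2) {w : G} (h : X.T M w) (hw : w ∈ M2) :
    X.T (M ⊓ M2) w := by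
  rcases h with h | ⟨N, hN, h⟩
  · exact Or.inl ⟨h, hw⟩
  · exact Or.inr ⟨N, hN, h, hX.K_l M2 hM2 N hN w hw⟩

omit hX in
lemma T_of_inf {M M2 : Subgroup G} {w : G} (h : X.T (M ⊓ M2) w) : X.T M w := by
  rcases h with h | ⟨N, hN, h⟩
  · exact Or.inl h.1
  · exact Or.inr ⟨N, hN, h.1⟩

omit hX in
lemma hG_T {out : Ordinal.{u} → Dat G} {M : Subgroup G} {w : G} (h : X.T M w) :
    X.hG out M w = X.ht M w := by
  rw [hG, if_pos h]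

omit hX in
lemma hG_lev {out : Ordinal.{u} → Dat G} {M : Subgroup G} {w : G} (h : ¬ X.T M w)
    (h' : X.Lev M (X.lev w)) :
    X.hG out M w = (out (X.lev w)).h (M ⊓ X.V (X.lev w + 1)) w := by
  rw [hG, if_neg h, if_pos h']

lemma hG_rec {out : Ordinal.{u} → Dat G} {M : Subgroup G} (hM : X.K M) {w : G} (h : ¬ X.T M w)
    (h' : ¬ X.Lev M (X.lev w)) :
    X.hG out M w = X.hG out M (X.ht (X.V (X.lev w)) w) := by
  rw [hG, if_neg h, if_neg h']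
  split_ifs with h1
  · rfl
  · have h2 : X.ht (X.V (X.lev w)) w ∈ X.V (X.lev w) :=
      hX.ht2 _ (hX.K_cl _ (hX.K_V _)) w
    have h3 : X.ht (X.V (X.lev w)) w ∈ X.V 0 := by
      by_contra h3
      exact h1 (lev_spec hX h2 h3).2.2
    rw [hG_T (Or.inl (hX.K_0 M hM h3))]

lemma hG_U {out : Ordinal.{u} → Dat G} {M : Subgroup G} (hM : X.K M) {w : G}
    (hw : w ∈ UU X.𝒩) : X.hG out M w = X.D.h M w := by
  rw [hG_T (T_of_U hX hM hw), hX.ht4 M (hX.K_cl M hM) w hw]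

lemma hG_mem {out : Ordinal.{u} → Dat G} {M : Subgroup G} (hM : X.K M) {w : G}
    (hw : w ∈ M) : X.hG out M w = w := by
  rw [hG_T (Or.inl hw), hX.ht1 M (hX.K_cl M hM) w hw]

lemma ht7 {M M2 : Subgroup G} (hM : X.K M) (hM2 : X.K M2) {w : G} (h : X.T M w)
    (hw : w ∈ M2) : X.ht M w = X.ht (M ⊓ M2) w := by
  have hI := hX.K_inf M M2 hM hM2
  rcases h with h | ⟨N, hN, h⟩
  · rw [hX.ht1 M (hX.K_cl M hM) w h, hX.ht1 _ (hX.K_cl _ hI) w ⟨h, hw⟩]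
  · have h1 : w = lN N w * ((lN N w)⁻¹ * w) := by group
    have h2 : (lN N w)⁻¹ * w ∈ UU X.𝒩 := ⟨N, hN, lN_inv_mul N w⟩
    have h3 : lN N w ∈ M2 := hX.K_l M2 hM2 N hN w hw
    have h4 : (lN N w)⁻¹ * w ∈ M2 := M2.mul_mem (M2.inv_mem h3) hw
    rw [h1, hX.ht3 M (hX.K_cl M hM) _ _ h, hX.ht3 _ (hX.K_cl _ hI) _ _ ⟨h, h3⟩,
      hX.ht4 M (hX.K_cl M hM) _ h2, hX.ht4 _ (hX.K_cl _ hI) _ h2,
      hX.sys.s7 M M2 (hX.K_cl M hM) (hX.K_cl M2 hM2) _ h2 h4]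

omit hX in
lemma Lev_iff {M : Subgroup G} {η : Ordinal.{u}} :
    X.Lev M η ↔ ∃ w ∈ M, w ∈ X.V (η + 1) ∧ w ∉ X.V η := by
  rw [Lev, SetLike.not_le_iff_exists]
  constructor
  · rintro ⟨w, h1, h2⟩; exact ⟨w, h1.1, h1.2, h2⟩
  · rintro ⟨w, h1, h2, h3⟩; exact ⟨w, ⟨h1, h2⟩, h3⟩

omit hX in
lemma ClS.mono {out : Ordinal.{u} → Dat G} {ξ ξ' : Ordinal.{u}} {M : Subgroup G}
    (h : X.ClS out ξ M) (hξ : ξ' ≤ ξ) : X.ClS out ξ' M :=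
  ⟨h.1, fun η hη => h.2 η (hη.trans_le hξ)⟩

variable {out : Ordinal.{u} → Dat G} {ξ : Ordinal.{u}} (hg : ∀ η < ξ, X.Good out η)

include hg

lemma ClS_inf {M M2 : Subgroup G} (hM : X.ClS out ξ M) (hM2 : X.ClS out ξ M2) :
    X.ClS out ξ (M ⊓ M2) := by
  refine ⟨hX.K_inf _ _ hM.1 hM2.1, fun η hη hL => ?_⟩
  obtain ⟨w, hw, h1, h2⟩ := Lev_iff.1 hL
  have a1 := hM.2 η hη (Lev_iff.2 ⟨w, hw.1, h1, h2⟩)
  have a2 := hM2.2 η hη (Lev_iff.2 ⟨w, hw.2, h1, h2⟩)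
  have := (hg η hη).sys.clInf _ _ a1 a2
  have e1 : M ⊓ X.V (η + 1) ⊓ (M2 ⊓ X.V (η + 1)) = M ⊓ M2 ⊓ X.V (η + 1) := by
    rw [inf_inf_inf_comm, inf_idem]
  rwa [e1] at this

lemma ClS_V (ζ : Ordinal.{u}) : X.ClS out ξ (X.V ζ) := by
  refine ⟨hX.K_V ζ, fun η hη hL => ?_⟩
  have h1 : η + 1 ≤ ζ := by
    by_contra h
    rw [not_le] at h
    have : ζ ≤ η := Order.lt_add_one_iff.1 h
    exact hL (inf_le_left.trans (hX.V_mono this))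
  rw [inf_eq_right.2 (hX.V_mono h1)]
  exact (hg η hη).sys.clW

/-- closedness of the trace gives `e`. -/
lemma Lev_inf {M M2 : Subgroup G} {η : Ordinal.{u}} (hη : η < ξ) (hM : X.ClS out ξ M)
    (hM2 : X.ClS out ξ M2) (h1 : X.Lev M η) (h2 : X.Lev M2 η) : X.Lev (M ⊓ M2) η := by
  have a1 := ((hg η hη).g2 _ (hM.2 η hη h1)).2.2.1
  have a2 := ((hg η hη).g2 _ (hM2.2 η hη h2)).2.2.1
  refine Lev_iff.2 ⟨X.e η, ⟨a1.1, a2.1⟩, hX.e_mem η, hX.e_not η ?_⟩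
  intro h
  exact h1 (inf_le_right.trans h)

theorem S7G {M M2 : Subgroup G} (hM : X.ClS out ξ M) (hM2 : X.ClS out ξ M2) :
    ∀ (w : G), w ∈ X.V ξ → w ∈ M2 → X.hG out M w = X.hG out (M ⊓ M2) w := by
  intro w
  induction hl : X.lev w using WellFoundedLT.induction generalizing w with
  | _ l IH =>
    subst hl
    intro hw hwM
    by_cases hT : X.T M w
    · rw [hG_T hT, hG_T (T_inf hX hM2.1 hT hwM), ht7 hX hM.1 hM2.1 hT hwM]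
    have hT' : ¬ X.T (M ⊓ M2) w := fun h => hT (T_of_inf h)
    have hw0 : w ∉ X.V 0 := fun h => hT (Or.inl (hX.K_0 M hM.1 h))
    obtain ⟨l1, l2, l3⟩ := lev_spec hX hw hw0
    have hL2 : X.Lev M2 (X.lev w) := Lev_iff.2 ⟨w, hwM, l1, l2⟩
    have hgl := hg _ l3
    by_cases hL : X.Lev M (X.lev w)
    · have hL' := Lev_inf hX hg l3 hM hM2 hL hL2
      rw [hG_lev hT hL, hG_lev hT' hL']
      have h7 := hgl.sys.s7 _ _ (hM.2 _ l3 hL) (hM2.2 _ l3 hL2) w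
        ((mem_UU_singleton _ _).2 l1) ⟨hwM, l1⟩
      rw [h7]
      congr 1
      rw [inf_inf_inf_comm, inf_idem]
    · have hL' : ¬ X.Lev (M ⊓ M2) (X.lev w) := by
        intro h
        obtain ⟨u, hu, h1, h2⟩ := Lev_iff.1 h
        exact hL (Lev_iff.2 ⟨u, hu.1, h1, h2⟩)
      rw [hG_rec hX hM.1 hT hL, hG_rec hX (hX.K_inf _ _ hM.1 hM2.1) hT' hL']
      have hq : X.ht (X.V (X.lev w)) w ∈ X.V (X.lev w) := hX.ht2 _ (hX.K_cl _ (hX.K_V _)) w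
      have hqM : X.ht (X.V (X.lev w)) w ∈ M2 :=
        ((hgl.g2 _ (hM2.2 _ l3 hL2)).2.2.2 w ⟨hwM, l1⟩).1
      by_cases hq0 : X.ht (X.V (X.lev w)) w ∈ X.V 0
      · rw [hG_mem hX hM.1 (hX.K_0 M hM.1 hq0),
          hG_mem hX (hX.K_inf _ _ hM.1 hM2.1) (hX.K_0 _ (hX.K_inf _ _ hM.1 hM2.1) hq0)]
      · exact IH _ (lev_spec hX hq hq0).2.2 _ rfl (hX.V_mono l3.le hq) hqM

theorem S2G {M : Subgroup G} (hM : X.ClS out ξ M) :
    ∀ (w : G), w ∈ X.V ξ → X.hG out M w ∈ M := by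
  intro w
  induction hl : X.lev w using WellFoundedLT.induction generalizing w with
  | _ l IH =>
    subst hl
    intro hw
    by_cases hT : X.T M w
    · rw [hG_T hT]; exact hX.ht2 _ (hX.K_cl _ hM.1) _
    have hw0 : w ∉ X.V 0 := fun h => hT (Or.inl (hX.K_0 M hM.1 h))
    obtain ⟨l1, l2, l3⟩ := lev_spec hX hw hw0
    have hgl := hg _ l3
    by_cases hL : X.Lev M (X.lev w)
    · rw [hG_lev hT hL]
      exact (hgl.sys.s2 _ (hM.2 _ l3 hL) w ((mem_UU_singleton _ _).2 l1)).1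
    · rw [hG_rec hX hM.1 hT hL]
      have hq : X.ht (X.V (X.lev w)) w ∈ X.V (X.lev w) := hX.ht2 _ (hX.K_cl _ (hX.K_V _)) w
      by_cases hq0 : X.ht (X.V (X.lev w)) w ∈ X.V 0
      · rw [hG_mem hX hM.1 (hX.K_0 M hM.1 hq0)]
        exact hX.K_0 M hM.1 hq0
      · exact IH _ (lev_spec hX hq hq0).2.2 _ rfl (hX.V_mono l3.le hq)

theorem S2V {M : Subgroup G} (hM : X.ClS out ξ M) {ζ : Ordinal.{u}} {w : G}
    (hw : w ∈ X.V ξ) (hwζ : w ∈ X.V ζ) : X.hG out M w ∈ X.V ζ := by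
  rw [S7G hX hg hM (ClS_V hX hg ζ) w hw hwζ]
  exact (S2G hX hg (ClS_inf hX hg hM (ClS_V hX hg ζ)) w hw).2

/-- consistency with the inner reductions. -/
theorem cons {M : Subgroup G} (hM : X.ClS out ξ M) {η : Ordinal.{u}} (hη : η < ξ)
    (hL : X.Lev M η) {w : G} (hw : w ∈ X.V (η + 1)) :
    (out η).h (M ⊓ X.V (η + 1)) w = X.hG out M w := by
  have hcl := hM.2 η hη hL
  have hgη := hg η hη
  have hM' : X.ClS out ξ (M ⊓ X.V (η + 1)) := ClS_inf hX hg hM (ClS_V hX hg _)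
  have hKV := hX.K_V (η + 1)
  by_cases hwη : w ∈ X.V η
  · rw [hgη.g4 _ hcl w hw (Or.inr hwη),
      S7G hX hg hM (ClS_V hX hg (η + 1)) w (hX.V_mono hη.le hwη) hw]
  by_cases hT : X.T M w
  · rw [hG_T hT]
    rcases hT with hT | ⟨N, hN, hT⟩
    · rw [hX.ht1 M (hX.K_cl M hM.1) w hT]
      exact hgη.sys.s1 _ hcl w ((mem_UU_singleton _ _).2 hw) ⟨hT, hw⟩
    · have h1 : w = lN N w * ((lN N w)⁻¹ * w) := by group
      have h2 : (lN N w)⁻¹ * w ∈ UU X.𝒩 := ⟨N, hN, lN_inv_mul N w⟩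
      have h3 : lN N w ∈ X.V (η + 1) := hX.K_l _ hKV N hN w hw
      have h4 : (lN N w)⁻¹ * w ∈ X.V (η + 1) := (X.V (η + 1)).mul_mem (inv_mem h3) hw
      have h5 := hgη.sys.s3 _ hcl ((lN N w)⁻¹ * w) ((mem_UU_singleton _ _).2 h4) (lN N w)
        ⟨hT, h3⟩ (by rw [← h1]; exact (mem_UU_singleton _ _).2 hw)
      rw [← h1] at h5
      rw [h5, hgη.g4 _ hcl _ h4 (Or.inl h2), hG_U hX hM'.1 h2]
      conv_rhs => rw [h1]
      rw [hX.ht3 M (hX.K_cl M hM.1) _ _ hT, hX.ht4 M (hX.K_cl M hM.1) _ h2,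
        hX.sys.s7 M _ (hX.K_cl M hM.1) (hX.K_cl _ hKV) _ h2 h4]
  · have hl : X.lev w = η := lev_eq hX hw hwη
    subst hl
    rw [hG_lev hT hL]

theorem cG_V {η : Ordinal.{u}} (hη : η < ξ) {w : G} (hw : w ∈ X.V (η + 1)) :
    X.cG out w = (out η).c w := by
  by_cases h : w ∈ UU X.𝒩 ∨ w ∈ X.V η
  · exact ((hg η hη).g3 w hw h).symm
  · rw [not_or] at h
    have h0 : w ∉ X.V 0 := fun h0 => h.2 (hX.V_mono zero_le h0)
    rw [cG, if_neg h.1, if_neg h0, lev_eq hX hw h.2]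

omit hg in
lemma cG_U {w : G} (hw : w ∈ UU X.𝒩) : X.cG out w = X.D.c w := by
  rw [cG, if_pos hw]

/-- general two point level: minimal `θ` with both elements in `V (θ+1)`. -/
lemma two_lev {ζ : Ordinal.{u}} {x y : G} (hx : x ∈ X.V ζ) (hy : y ∈ X.V ζ)
    (h0 : ¬ (x ∈ X.V 0 ∧ y ∈ X.V 0)) :
    ∃ θ < ζ, x ∈ X.V (θ + 1) ∧ y ∈ X.V (θ + 1) ∧ ¬ (x ∈ X.V θ ∧ y ∈ X.V θ) := by
  by_cases hx0 : x ∈ X.V 0
  · have hy0 : y ∉ X.V 0 := fun h => h0 ⟨hx0, h⟩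
    obtain ⟨l1, l2, l3⟩ := lev_spec hX hy hy0
    exact ⟨_, l3, hX.V_mono zero_le hx0, l1, fun h => l2 h.2⟩
  · obtain ⟨l1, l2, l3⟩ := lev_spec hX hx hx0
    by_cases hy0 : y ∈ X.V 0
    · exact ⟨_, l3, l1, hX.V_mono zero_le hy0, fun h => l2 h.1⟩
    · obtain ⟨m1, m2, m3⟩ := lev_spec hX hy hy0
      rcases le_total (X.lev x) (X.lev y) with h | h
      · exact ⟨_, m3, hX.V_mono (by gcongr) l1, m1, fun h => m2 h.2⟩
      · exact ⟨_, l3, l1, hX.V_mono (by gcongr) m1, fun h => l2 h.1⟩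

theorem S3G {M : Subgroup G} (hM : X.ClS out ξ M) :
    ∀ ζ ≤ ξ, ∀ w ∈ X.V ζ, ∀ z ∈ M, z * w ∈ X.V ζ → X.hG out M (z * w) = z * X.hG out M w := by
  intro ζ
  induction ζ using WellFoundedLT.induction with
  | _ ζ IH =>
    intro hζ w hw z hz hzw
    by_cases hT : X.T M w
    · rw [hG_T hT, hG_T ((T_smul hX hM.1 hz).2 hT), hX.ht3 M (hX.K_cl M hM.1) _ _ hz]
    have hT' : ¬ X.T M (z * w) := fun h => hT ((T_smul hX hM.1 hz).1 h)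
    have hw0 : w ∉ X.V 0 := fun h => hT (Or.inl (hX.K_0 M hM.1 h))
    obtain ⟨θ, t1, t2, t3, t4⟩ := two_lev hX hg hw hzw (fun h => hw0 h.1)
    have hθ : θ < ξ := t1.trans_le hζ
    have hzV : z ∈ X.V (θ + 1) := by
      have := (X.V (θ + 1)).mul_mem t3 (inv_mem t2)
      simpa using this
    by_cases hL : X.Lev M θ
    · rw [← cons hX hg hM hθ hL t2, ← cons hX hg hM hθ hL t3]
      exact (hg θ hθ).sys.s3 _ (hM.2 θ hθ hL) w ((mem_UU_singleton _ _).2 t2) z ⟨hz, hzV⟩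
        ((mem_UU_singleton _ _).2 t3)
    · have hzθ : z ∈ X.V θ := by
        by_contra h
        exact hL (Lev_iff.2 ⟨z, hz, hzV, h⟩)
      have hw' : w ∉ X.V θ := fun h => t4 ⟨h, (X.V θ).mul_mem hzθ h⟩
      have hzw' : z * w ∉ X.V θ := by
        intro h
        apply hw'
        have := (X.V θ).mul_mem (inv_mem hzθ) h
        simpa using this
      have lw : X.lev w = θ := lev_eq hX t2 hw'
      have lzw : X.lev (z * w) = θ := lev_eq hX t3 hzw'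
      rw [hG_rec hX hM.1 hT (by rw [lw]; exact hL), hG_rec hX hM.1 hT' (by rw [lzw]; exact hL),
        lw, lzw, hX.ht3 _ (hX.K_cl _ (hX.K_V θ)) _ _ hzθ]
      have hq : X.ht (X.V θ) w ∈ X.V θ := hX.ht2 _ (hX.K_cl _ (hX.K_V _)) w
      exact IH θ t1 hθ.le _ hq z hz ((X.V θ).mul_mem hzθ hq)

/-- equivariance of the stage reductions. -/
theorem S3G' {M : Subgroup G} (hM : X.ClS out ξ M) {w z : G}
    (hw : w ∈ UU X.𝒩 ∨ w ∈ X.V ξ) (hz : z ∈ M) (hzw : z * w ∈ UU X.𝒩 ∨ z * w ∈ X.V ξ) :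
    X.hG out M (z * w) = z * X.hG out M w := by
  by_cases hT : X.T M w
  · rw [hG_T hT, hG_T ((T_smul hX hM.1 hz).2 hT), hX.ht3 M (hX.K_cl M hM.1) _ _ hz]
  have hT' : ¬ X.T M (z * w) := fun h => hT ((T_smul hX hM.1 hz).1 h)
  exact S3G hX hg hM ξ le_rfl w (hw.resolve_left fun h => hT (T_of_U hX hM.1 h)) z hz
    (hzw.resolve_left fun h => hT' (T_of_U hX hM.1 h))

lemma mem_of_notLev {M : Subgroup G} (hM : X.ClS out ξ M) {η : Ordinal.{u}} (hη : η < ξ)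
    (hL : ¬ X.Lev M η) {w : G} (hw : w ∈ X.V (η + 1)) : X.hG out M w ∈ X.V η := by
  have hwξ : w ∈ X.V ξ := hX.V_mono (Order.add_one_le_of_lt hη) hw
  by_contra h
  exact hL (Lev_iff.2 ⟨_, S2G hX hg hM w hwξ, S2V hX hg hM hwξ hw, h⟩)

theorem S4G {M : Subgroup G} (hM : X.ClS out ξ M) {w : G}
    (hw : w ∈ UU X.𝒩 ∨ w ∈ X.V ξ) (hwM : w ∉ M) :
    X.cG out (X.hG out M w) < X.cG out w := by
  by_cases hU : w ∈ UU X.𝒩
  · rw [hG_U hX hM.1 hU, cG_U hX hU]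
    obtain ⟨N, hN, hwN⟩ := hU
    rw [cG_U hX ⟨N, hN, hX.sys.s5c M (hX.K_cl M hM.1) N hN w hwN⟩]
    exact hX.sys.s4 M (hX.K_cl M hM.1) w ⟨N, hN, hwN⟩ hwM
  · have hwξ := hw.resolve_left hU
    have hw0 : w ∉ X.V 0 := fun h => hwM (hX.K_0 M hM.1 h)
    obtain ⟨l1, l2, l3⟩ := lev_spec hX hwξ hw0
    have hgl := hg _ l3
    by_cases hL : X.Lev M (X.lev w)
    · rw [cG_V hX hg l3 (S2V hX hg hM hwξ l1), cG_V hX hg l3 l1, ← cons hX hg hM l3 hL l1]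
      exact hgl.sys.s4 _ (hM.2 _ l3 hL) w ((mem_UU_singleton _ _).2 l1) (fun h => hwM h.1)
    · rw [cG_V hX hg l3 l1]
      exact hgl.g5h w l1 hU l2 M (hM.mono l3.le) hL

theorem S6G {w : G} (hw : w ∈ UU X.𝒩 ∨ w ∈ X.V ξ) : X.cG out w⁻¹ = X.cG out w := by
  by_cases hU : w ∈ UU X.𝒩
  · obtain ⟨N, hN, hwN⟩ := hU
    rw [cG_U hX ⟨N, hN, hwN⟩, cG_U hX ⟨N, hN, N.inv_mem hwN⟩]
    exact hX.sys.s6 w ⟨N, hN, hwN⟩
  · have hU' : w⁻¹ ∉ UU X.𝒩 := by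
      rintro ⟨N, hN, hwN⟩
      exact hU ⟨N, hN, by simpa using N.inv_mem hwN⟩
    have hwξ := hw.resolve_left hU
    by_cases hw0 : w ∈ X.V 0
    · rw [cG, if_neg hU', if_pos (inv_mem hw0), cG, if_neg hU, if_pos hw0, hX.base3]
    · obtain ⟨l1, l2, l3⟩ := lev_spec hX hwξ hw0
      rw [cG_V hX hg l3 l1, cG_V hX hg l3 (inv_mem l1)]
      exact (hg _ l3).sys.s6 w ((mem_UU_singleton _ _).2 l1)

/-- finiteness of values in the non-level case. -/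
lemma fin_T (w : G) : {t | ∃ M, X.ClS out ξ M ∧ X.T M w ∧ X.hG out M w = t}.Finite := by
  have h1 : ({w} ∪ ⋃ N ∈ X.𝒩, (fun t => lN N w * t) ''
      {t | ∃ M, X.D.Cl M ∧ X.D.h M ((lN N w)⁻¹ * w) = t} : Set G).Finite := by
    refine (Set.finite_singleton w).union (hX.sys.fin.biUnion fun N hN => Set.Finite.image _ ?_)
    exact hX.sys.s5 _ ⟨N, hN, lN_inv_mul N w⟩
  refine h1.subset ?_
  rintro t ⟨M, hM, hT, rfl⟩
  rw [hG_T hT]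
  rcases hT with hT | ⟨N, hN, hT⟩
  · left
    rw [hX.ht1 M (hX.K_cl M hM.1) w hT]
    rfl
  · right
    refine Set.mem_biUnion hN ⟨X.D.h M ((lN N w)⁻¹ * w), ⟨M, hX.K_cl M hM.1, rfl⟩, ?_⟩
    have h1 : w = lN N w * ((lN N w)⁻¹ * w) := by group
    have h2 : (lN N w)⁻¹ * w ∈ UU X.𝒩 := ⟨N, hN, lN_inv_mul N w⟩
    conv_rhs => rw [h1]
    rw [hX.ht3 M (hX.K_cl M hM.1) _ _ hT, hX.ht4 M (hX.K_cl M hM.1) _ h2]

theorem S5G : ∀ (w : G), w ∈ X.V ξ → {t | ∃ M, X.ClS out ξ M ∧ X.hG out M w = t}.Finite := by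
  intro w
  induction hl : X.lev w using WellFoundedLT.induction generalizing w with
  | _ l IH =>
    subst hl
    intro hw
    by_cases hw0 : w ∈ X.V 0
    · refine (Set.finite_singleton w).subset ?_
      rintro t ⟨M, hM, rfl⟩
      rw [hG_mem hX hM.1 (hX.K_0 M hM.1 hw0)]
      rfl
    obtain ⟨l1, l2, l3⟩ := lev_spec hX hw hw0
    have hq : X.ht (X.V (X.lev w)) w ∈ X.V (X.lev w) := hX.ht2 _ (hX.K_cl _ (hX.K_V _)) w
    have hqf : {t | ∃ M, X.ClS out ξ M ∧ X.hG out M (X.ht (X.V (X.lev w)) w) = t}.Finite := by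
      by_cases hq0 : X.ht (X.V (X.lev w)) w ∈ X.V 0
      · refine (Set.finite_singleton (X.ht (X.V (X.lev w)) w)).subset ?_
        rintro t ⟨M, hM, rfl⟩
        rw [hG_mem hX hM.1 (hX.K_0 M hM.1 hq0)]
        rfl
      · exact IH _ (lev_spec hX hq hq0).2.2 _ rfl (hX.V_mono l3.le hq)
    refine (((fin_T hX hg w).union ((hg _ l3).sys.s5 w ((mem_UU_singleton _ _).2 l1))).union
      hqf).subset ?_
    rintro t ⟨M, hM, rfl⟩
    by_cases hT : X.T M w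
    · exact Or.inl (Or.inl ⟨M, hM, hT, rfl⟩)
    by_cases hL : X.Lev M (X.lev w)
    · refine Or.inl (Or.inr ⟨_, hM.2 _ l3 hL, ?_⟩)
      rw [cons hX hg hM l3 hL l1]
    · refine Or.inr ⟨M, hM, ?_⟩
      rw [hG_rec hX hM.1 hT hL]

/-- finiteness used for the bound on new elements at stage `ξ`. -/
theorem fin_new {w : G} (hw : w ∈ X.V (ξ + 1)) (hw' : w ∉ X.V ξ) :
    {t | ∃ M, X.ClS out ξ M ∧ ¬ X.Lev M ξ ∧ X.hG out M w = t}.Finite := by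
  have hl : X.lev w = ξ := lev_eq hX hw hw'
  have hq : X.ht (X.V ξ) w ∈ X.V ξ := hX.ht2 _ (hX.K_cl _ (hX.K_V _)) w
  refine ((fin_T hX hg w).union (S5G hX hg _ hq)).subset ?_
  rintro t ⟨M, hM, hL, rfl⟩
  by_cases hT : X.T M w
  · exact Or.inl ⟨M, hM, hT, rfl⟩
  · right
    refine ⟨M, hM, ?_⟩
    rw [hG_rec hX hM.1 hT (by rw [hl]; exact hL), hl]

end Ctx

end Pool.Agent.CountPartU
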